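import Mathlib
import Pool.Agent.Y201.LI.Stm
import Pool.Agent.Helper386.D5V.Helper386_FF_RR

/-! # Job LI-PL: the degree of a function on a curve through its values at points -/

set_option autoImplicit false

namespace Pool.Agent.Y37.LI

open MvPolynomial Module IntermediateField Pool.Agent.Y201.LI FF

noncomputable section

/-- scaling the arguments of a form -/
lemma aeval_scale {k N : Type} [Field k] [Field N] [Algebra k N] {r d : ℕ}
    (y : Fin r → N) (u : N) {G : MvPolynomial (Fin r) k} (hG : G.IsHomogeneous d) :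
    aeval (fun i => y i * u) G = u ^ d * aeval y G := by
  rw [aeval_def, aeval_def, eval₂_eq, eval₂_eq, Finset.mul_sum]
  refine Finset.sum_congr rfl fun m hm => ?_
  have h1 : ∑ i ∈ m.support, m i = d := by
    have := hG (mem_support_iff.1 hm)
    rw [Finsupp.weight_apply] at this
    simpa [Finsupp.sum] using this
  have h2 : ∏ i ∈ m.support, (y i * u) ^ m i = (∏ i ∈ m.support, y i ^ m i) * u ^ d := by
    rw [← h1, ← Finset.prod_pow_eq_pow_sum, ← Finset.prod_mul_distrib]
    exact Finset.prod_congr rfl fun i _ => mul_pow _ _ _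
  rw [h2]; ring

/-- reduction of the value of a polynomial at regular arguments -/
lemma red_aeval {k N : Type} [Field k] [Field N] [Algebra k N] (w : Place k N) {r : ℕ}
    (z : Fin r → N) (hz : ∀ i, w.Reg (z i)) (G : MvPolynomial (Fin r) k) :
    w.Reg (aeval z G) ∧ w.red (aeval z G) = aeval (fun i => w.red (z i)) G := by
  induction G using MvPolynomial.induction_on with
  | C a =>
    rw [aeval_C, aeval_C]
    exact ⟨w.reg_const a, rfl⟩
  | add p q hp hq =>
    rw [map_add, map_add]
    exact ⟨w.reg_add hp.1 hq.1, by rw [w.red_add hp.1 hq.1, hp.2, hq.2]⟩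
  | mul_X p i hp =>
    rw [map_mul, map_mul, aeval_X, aeval_X]
    exact ⟨w.reg_mul hp.1 (hz i), by rw [w.red_mul hp.1 (hz i), hp.2]⟩

theorem pl : S_PL := by
  classical
  intro k N _ _ _ _ r e y P Q f hP hQ hf hfin hQ0 hPQ c₀ c₁ hc hyp
  haveI : IsFF k N := IsFF.of_finite hf hfin
  have hf0 : f ≠ 0 := by
    rintro rfl
    exact hf isAlgebraic_zero
  have hP0 : aeval y P ≠ 0 := by
    rw [hPQ]; exact mul_ne_zero hf0 hQ0
  have hy : ∃ i, y i ≠ 0 := by
    by_contra h
    push Not at h
    have h0 : y = 0 := funext h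
    apply hf
    have h1 : f = algebraMap k N (constantCoeff P / constantCoeff Q) := by
      rw [map_div₀]
      have h2 : ∀ G : MvPolynomial (Fin r) k,
          aeval y G = algebraMap k N (constantCoeff G) := by
        intro G; rw [h0]; simp
      rw [← h2, ← h2, hPQ, mul_div_assoc, div_self hQ0, mul_one]
    rw [h1]
    exact isAlgebraic_algebraMap _
  have key : ∀ w : Place k N, (c₁ : ℤ) ∣ (polar (k := k) f - divisor k (aeval y Q)) w * w.deg := by
    intro w
    obtain ⟨t, ht0, ht⟩ := w.surj
    obtain ⟨i0, hi0, hmin⟩ := Finset.exists_min_image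
      (Finset.univ.filter fun i => y i ≠ 0) (fun i => w.ord (y i))
      (by obtain ⟨i, hi⟩ := hy; exact ⟨i, by simpa using hi⟩)
    have hi0' : y i0 ≠ 0 := by simpa using hi0
    set μ : ℤ := w.ord (y i0) with hμ
    set u : N := t ^ (-μ) with hu
    have hu0 : u ≠ 0 := zpow_ne_zero _ ht0
    have hou : w.ord u = -μ := by rw [hu, w.ord_zpow, ht, mul_one]
    have hreg : ∀ i, w.Reg (y i * u) := by
      intro i
      by_cases hi : y i = 0
      · left; rw [hi, zero_mul]
      · right
        rw [w.ord_mul hi hu0, hou]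
        have := hmin i (by simpa using hi)
        omega
    have hz0 : (fun i => w.red (y i * u)) ≠ 0 := by
      intro h
      have h1 : w.red (y i0 * u) = 0 := congrFun h i0
      refine w.red_ne_zero (mul_ne_zero hi0' hu0) ?_ h1
      rw [w.ord_mul hi0' hu0, hou]; omega
    have hG : ∀ (d : ℕ) (G : MvPolynomial (Fin r) k), G.IsHomogeneous d → aeval y G = 0 →
        aeval (fun i => w.red (y i * u)) G = 0 := by
      intro d G hG h0
      rw [← (red_aeval w _ hreg G).2, aeval_scale y u hG, h0, mul_zero, w.red_zero]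
    obtain ⟨h1, h2⟩ := hyp w.RF _ hz0 hG
    have hdeg : finrank k w.RF = w.deg := rfl
    rw [hdeg] at h1 h2
    -- the orders
    have hPw := red_aeval w _ hreg P
    have hQw := red_aeval w _ hreg Q
    rw [aeval_scale y u hP] at hPw
    rw [aeval_scale y u hQ] at hQw
    have hup : u ^ e ≠ 0 := pow_ne_zero _ hu0
    have hp : 0 ≤ w.ord (u ^ e * aeval y P) := (w.reg_iff (mul_ne_zero hup hP0)).1 hPw.1
    have hq : 0 ≤ w.ord (u ^ e * aeval y Q) := (w.reg_iff (mul_ne_zero hup hQ0)).1 hQw.1
    set p : ℤ := w.ord (u ^ e * aeval y P) with hpdef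
    set q : ℤ := w.ord (u ^ e * aeval y Q) with hqdef
    have hp' : w.ord (aeval y P) = p + e * μ := by
      rw [hpdef, w.ord_mul hup hP0, w.ord_pow, hou]; ring
    have hq' : w.ord (aeval y Q) = q + e * μ := by
      rw [hqdef, w.ord_mul hup hQ0, w.ord_pow, hou]; ring
    have hf' : w.ord f = p - q := by
      have := w.ord_mul hf0 hQ0
      rw [← hPQ, hp', hq'] at this
      linarith
    rw [Finsupp.sub_apply, polar_apply, divisor_apply, hf', hq']
    have e1 : (max (-(p - q)) 0 - (q + e * μ)) * (w.deg : ℤ) =
        -(min p q * w.deg) - μ * (e * w.deg) := by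
      have : max (-(p - q)) 0 = q - min p q := by
        rcases le_total p q with h | h
        · rw [min_eq_left h, max_eq_left (by omega)]; ring
        · rw [min_eq_right h, max_eq_right (by omega)]; ring
      rw [this]; ring
    rw [e1]
    apply dvd_sub
    · rw [dvd_neg]
      by_cases hpq : min p q = 0
      · rw [hpq, zero_mul]; exact dvd_zero _
      · have hp1 : 0 < p := by
          rcases le_total p q with h | h
          · rw [min_eq_left h] at hpq; omega
          · rw [min_eq_right h] at hpq; omega
        have hq1 : 0 < q := by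
          rcases le_total p q with h | h
          · rw [min_eq_left h] at hpq; omega
          · rw [min_eq_right h] at hpq; omega
        have e2 : aeval (fun i => w.red (y i * u)) P = 0 := by
          rw [← hPw.2, w.red_eq_zero_iff hPw.1]
          exact Or.inr hp1
        have e3 : aeval (fun i => w.red (y i * u)) Q = 0 := by
          rw [← hQw.2, w.red_eq_zero_iff hQw.1]
          exact Or.inr hq1
        exact dvd_mul_of_dvd_right (Int.natCast_dvd_natCast.2 (h2 e2 e3)) _
    · apply dvd_mul_of_dvd_right
      have : c₁ ∣ e * w.deg := hc.trans (mul_dvd_mul_left e h1)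
      exact_mod_cast this
  have hsum : (finrank k⟮f⟯ N : ℤ) = ddeg (polar (k := k) f - divisor k (aeval y Q)) := by
    rw [ddeg_sub, ddeg_polar hf, ddeg_divisor, sub_zero]
  have : (c₁ : ℤ) ∣ (finrank k⟮f⟯ N : ℤ) := by
    rw [hsum]
    exact Finset.dvd_sum fun w _ => key w
  exact_mod_cast this

end

end Pool.Agent.Y37.LI
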